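import Pool.Agent.Helper29.UG.Props

/-!
# MP_b55b7c_an, project UG: the minimax principle (packet Conv)
-/

open scoped ENNReal NNReal InnerProductSpace ComplexOrder
open Filter Topology

attribute [-instance] CStarMatrix.instAlgebra CStarMatrix.instModule CStarMatrix.instSMul
  CStarMatrix.instMulAction CStarMatrix.instDistribMulAction

noncomputable section
namespace RC.Conv94
universe u

section dyadic

/-- A closed set of reals which contains `0` and `1` and is closed under midpoints. -/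
theorem dyadic_all {T : Set ℝ} (hT : IsClosed T) (h0 : (0 : ℝ) ∈ T) (h1 : (1 : ℝ) ∈ T)
    (hm : ∀ s ∈ T, ∀ t ∈ T, (s + t) / 2 ∈ T) {t : ℝ} (ht0 : 0 ≤ t) (ht1 : t ≤ 1) : t ∈ T := by
  have hd : ∀ n k : ℕ, k ≤ 2 ^ n → (k : ℝ) / 2 ^ n ∈ T := by
    intro n
    induction n with
    | zero =>
      intro k hk
      have : k = 0 ∨ k = 1 := by
        rw [pow_zero] at hk
        omega
      rcases this with rfl | rfl
      · simpa using h0
      · simpa using h1
    | succ n ih =>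
      intro k hk
      rcases Nat.even_or_odd' k with ⟨j, rfl | rfl⟩
      · have h2 : j ≤ 2 ^ n := by
          rw [pow_succ] at hk
          omega
        have h3 : ((2 * j : ℕ) : ℝ) / 2 ^ (n + 1) = (j : ℝ) / 2 ^ n := by
          push_cast
          rw [pow_succ]
          field_simp
        rw [h3]
        exact ih j h2
      · have h2 : j + 1 ≤ 2 ^ n := by
          rw [pow_succ] at hk
          omega
        have h3 : ((2 * j + 1 : ℕ) : ℝ) / 2 ^ (n + 1) =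
            ((j : ℝ) / 2 ^ n + ((j + 1 : ℕ) : ℝ) / 2 ^ n) / 2 := by
          push_cast
          rw [pow_succ]
          field_simp
          ring
        rw [h3]
        exact hm _ (ih j (by omega)) _ (ih (j + 1) h2)
  have hlim : Tendsto (fun n : ℕ => ((⌊t * (2 : ℝ) ^ n⌋₊ : ℕ) : ℝ) / 2 ^ n) atTop (𝓝 t) := by
    have h2 : Tendsto (fun n : ℕ => (2 : ℝ) ^ n) atTop atTop :=
      tendsto_pow_atTop_atTop_of_one_lt (by norm_num)
    exact (tendsto_nat_floor_mul_div_atTop ht0).comp h2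
  refine hT.mem_of_tendsto hlim (Eventually.of_forall fun n => ?_)
  refine hd n _ ?_
  have h3 : t * (2 : ℝ) ^ n ≤ ((2 ^ n : ℕ) : ℝ) := by
    push_cast
    have : (0 : ℝ) < 2 ^ n := by positivity
    nlinarith
  exact Nat.floor_le_of_le h3

end dyadic

section
variable {A : Type u} [CStarAlgebra A] [PartialOrder A] [StarOrderedRing A]

/-- A tracial state from a function. -/
theorem exists_tstate (F : A → ℂ) (hadd : ∀ a b, F (a + b) = F a + F b)
    (hsmul : ∀ (c : ℂ) (a : A), F (c • a) = c * F a) (hpos : ∀ a : A, 0 ≤ a → 0 ≤ F a)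
    (htr : ∀ a b, F (a * b) = F (b * a)) (h1 : F 1 = 1) :
    ∃ φ : TState A, ∀ a, φ.φ a = F a :=
  ⟨{ φ := { toFun := F, map_add' := hadd, map_smul' := fun c a => hsmul c a }
     nonneg := hpos
     trace := htr
     one := h1 }, fun _ => rfl⟩

/-- The set of the invariant tracial states, in the product space. -/
def KSet {G : Type} (α : G → A ≃⋆ₐ[ℂ] A) : Set (A → ℂ) :=
  {F | ∃ φ : TState A, Inv α φ ∧ ∀ a, φ.φ a = F a}

theorem kset_eq {G : Type} (α : G → A ≃⋆ₐ[ℂ] A) : KSet α =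
    {F : A → ℂ | (∀ a b : A, F (a + b) = F a + F b) ∧ (∀ (c : ℂ) (a : A), F (c • a) = c * F a) ∧
      (∀ a : A, 0 ≤ a → 0 ≤ F a) ∧ (∀ a b : A, F (a * b) = F (b * a)) ∧ F 1 = 1 ∧
      ∀ (g : G) (a : A), F (α g a) = F a} := by
  ext F
  constructor
  · rintro ⟨φ, hφ, hF⟩
    refine ⟨fun a b => ?_, fun c a => ?_, fun a ha => ?_, fun a b => ?_, ?_, fun g a => ?_⟩
    · rw [← hF, ← hF, ← hF, map_add]
    · rw [← hF, ← hF, map_smul, smul_eq_mul]
    · rw [← hF]; exact φ.nonneg a ha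
    · rw [← hF, ← hF]; exact φ.trace a b
    · rw [← hF]; exact φ.one
    · rw [← hF, ← hF]; exact hφ g a
  · rintro ⟨h1, h2, h3, h4, h5, h6⟩
    obtain ⟨φ, hφ⟩ := exists_tstate F h1 h2 h3 h4 h5
    exact ⟨φ, fun g a => by rw [hφ, hφ]; exact h6 g a, hφ⟩

theorem kset_closed {G : Type} (α : G → A ≃⋆ₐ[ℂ] A) : IsClosed (KSet α) := by
  rw [kset_eq]
  have c : ∀ a : A, Continuous fun F : A → ℂ => F a := fun a => continuous_apply a
  have e1 : IsClosed {F : A → ℂ | ∀ a b : A, F (a + b) = F a + F b} := by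
    simp only [Set.ofPred_forall]
    exact isClosed_iInter fun a => isClosed_iInter fun b => isClosed_eq (c _) ((c _).add (c _))
  have e2 : IsClosed {F : A → ℂ | ∀ (k : ℂ) (a : A), F (k • a) = k * F a} := by
    simp only [Set.ofPred_forall]
    exact isClosed_iInter fun k => isClosed_iInter fun a =>
      isClosed_eq (c _) (continuous_const.mul (c _))
  have e3 : IsClosed {F : A → ℂ | ∀ a : A, 0 ≤ a → 0 ≤ F a} := by
    simp only [Set.ofPred_forall]
    exact isClosed_iInter fun a => isClosed_iInter fun _ => isClosed_le continuous_const (c _)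
  have e4 : IsClosed {F : A → ℂ | ∀ a b : A, F (a * b) = F (b * a)} := by
    simp only [Set.ofPred_forall]
    exact isClosed_iInter fun a => isClosed_iInter fun b => isClosed_eq (c _) (c _)
  have e5 : IsClosed {F : A → ℂ | F 1 = 1} := isClosed_eq (c _) continuous_const
  have e6 : IsClosed {F : A → ℂ | ∀ (g : G) (a : A), F (α g a) = F a} := by
    simp only [Set.ofPred_forall]
    exact isClosed_iInter fun g => isClosed_iInter fun a => isClosed_eq (c _) (c _)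
  exact e1.inter (e2.inter (e3.inter (e4.inter (e5.inter e6))))

theorem kset_compact (h2 : N2P.{u}) {G : Type} (α : G → A ≃⋆ₐ[ℂ] A) : IsCompact (KSet α) := by
  have h : IsCompact (Set.pi Set.univ fun a : A => Metric.closedBall (0 : ℂ) ‖a‖) :=
    isCompact_univ_pi fun a => isCompact_closedBall _ _
  refine h.of_isClosed_subset (kset_closed α) ?_
  rintro F ⟨φ, -, hF⟩ a -
  rw [mem_closedBall_zero_iff, ← hF]
  obtain ⟨h3, -⟩ := h2 A φ
  obtain ⟨-, -, h4, h5, -⟩ := h3 a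
  exact h5.trans h4

/-- Convexity. -/
theorem kset_convex {G : Type} (α : G → A ≃⋆ₐ[ℂ] A) {F₀ F₁ : A → ℂ} (h0 : F₀ ∈ KSet α)
    (h1 : F₁ ∈ KSet α) {s t : ℝ} (hs : 0 ≤ s) (ht : 0 ≤ t) (hst : s + t = 1) :
    (fun a => (s : ℂ) * F₀ a + (t : ℂ) * F₁ a) ∈ KSet α := by
  rw [kset_eq] at h0 h1 ⊢
  obtain ⟨a1, a2, a3, a4, a5, a6⟩ := h0
  obtain ⟨b1, b2, b3, b4, b5, b6⟩ := h1
  refine ⟨fun a b => ?_, fun c a => ?_, fun a ha => ?_, fun a b => ?_, ?_, fun g a => ?_⟩
  · show (s : ℂ) * F₀ (a + b) + (t : ℂ) * F₁ (a + b) =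
      ((s : ℂ) * F₀ a + (t : ℂ) * F₁ a) + ((s : ℂ) * F₀ b + (t : ℂ) * F₁ b)
    rw [a1, b1]; ring
  · show (s : ℂ) * F₀ (c • a) + (t : ℂ) * F₁ (c • a) = c * ((s : ℂ) * F₀ a + (t : ℂ) * F₁ a)
    rw [a2, b2]; ring
  · show 0 ≤ (s : ℂ) * F₀ a + (t : ℂ) * F₁ a
    have e1 : (0 : ℂ) ≤ (s : ℂ) := by exact_mod_cast hs
    have e2 : (0 : ℂ) ≤ (t : ℂ) := by exact_mod_cast ht
    exact add_nonneg (mul_nonneg e1 (a3 a ha)) (mul_nonneg e2 (b3 a ha))
  · show (s : ℂ) * F₀ (a * b) + (t : ℂ) * F₁ (a * b) = (s : ℂ) * F₀ (b * a) + (t : ℂ) * F₁ (b * a)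
    rw [a4, b4]
  · show (s : ℂ) * F₀ 1 + (t : ℂ) * F₁ 1 = 1
    rw [a5, b5, mul_one, mul_one]
    exact_mod_cast hst
  · show (s : ℂ) * F₀ (α g a) + (t : ℂ) * F₁ (α g a) = (s : ℂ) * F₀ a + (t : ℂ) * F₁ a
    rw [a6, b6]

/-- The set of the elements which can be approximated from above by elements of `V`. -/
def GG {G : Type} (α : G → A ≃⋆ₐ[ℂ] A) (V : Set A) : Set A :=
  {g | ∀ ε : ℝ, 0 < ε → ∃ f ∈ V, ∀ φ : TState A, Inv α φ → (φ.φ f).re ≤ (φ.φ g).re + ε}

theorem gg_closed (h2 : N2P.{u}) {G : Type} (α : G → A ≃⋆ₐ[ℂ] A) (V : Set A) :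
    IsClosed (GG α V) := by
  rw [← closure_subset_iff_isClosed]
  intro g hg ε hε
  obtain ⟨g', hg', hd⟩ := Metric.mem_closure_iff.mp hg (ε / 2) (by linarith)
  obtain ⟨f, hf, hfφ⟩ := hg' (ε / 2) (by linarith)
  refine ⟨f, hf, fun φ hφ => ?_⟩
  have e1 := hfφ φ hφ
  obtain ⟨h3, -⟩ := h2 A φ
  obtain ⟨-, -, h4, h5, -⟩ := h3 (g' - g)
  have e2 : (φ.φ g').re = (φ.φ g).re + (φ.φ (g' - g)).re := by
    rw [map_sub, Complex.sub_re]
    ring
  have e3 : (φ.φ (g' - g)).re ≤ ε / 2 := by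
    calc (φ.φ (g' - g)).re ≤ ‖φ.φ (g' - g)‖ := Complex.re_le_norm _
      _ ≤ ‖g' - g‖ := h5.trans h4
      _ ≤ ε / 2 := by
        rw [dist_eq_norm, norm_sub_rev] at hd
        exact hd.le
  linarith

theorem gg_mid {G : Type} (α : G → A ≃⋆ₐ[ℂ] A) (V : Set A)
    (hm : ∀ f₀ ∈ V, ∀ f₁ ∈ V, ∀ ε : ℝ, 0 < ε → ∃ f ∈ V, ∀ φ : TState A, Inv α φ →
      (φ.φ f).re ≤ ((φ.φ f₀).re + (φ.φ f₁).re) / 2 + ε) {g₀ g₁ g : A} (h0 : g₀ ∈ GG α V)
    (h1 : g₁ ∈ GG α V) (hg : ∀ φ : TState A, (φ.φ g).re = ((φ.φ g₀).re + (φ.φ g₁).re) / 2) :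
    g ∈ GG α V := by
  intro ε hε
  obtain ⟨f₀, hf₀, e0⟩ := h0 (ε / 2) (by linarith)
  obtain ⟨f₁, hf₁, e1⟩ := h1 (ε / 2) (by linarith)
  obtain ⟨f, hf, e2⟩ := hm f₀ hf₀ f₁ hf₁ (ε / 2) (by linarith)
  refine ⟨f, hf, fun φ hφ => ?_⟩
  have a0 := e0 φ hφ
  have a1 := e1 φ hφ
  have a2 := e2 φ hφ
  have a3 := hg φ
  linarith

theorem phi_comb (φ : TState A) (s t : ℝ) (x y : A) :
    (φ.φ ((s : ℂ) • x + (t : ℂ) • y)).re = s * (φ.φ x).re + t * (φ.φ y).re := by
  rw [map_add, map_smul, map_smul, Complex.add_re, smul_eq_mul, smul_eq_mul,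
    Complex.re_ofReal_mul, Complex.re_ofReal_mul]

theorem gg_convex (h2 : N2P.{u}) {G : Type} (α : G → A ≃⋆ₐ[ℂ] A) (V : Set A)
    (hm : ∀ f₀ ∈ V, ∀ f₁ ∈ V, ∀ ε : ℝ, 0 < ε → ∃ f ∈ V, ∀ φ : TState A, Inv α φ →
      (φ.φ f).re ≤ ((φ.φ f₀).re + (φ.φ f₁).re) / 2 + ε) {x y : A} (hx : x ∈ GG α V)
    (hy : y ∈ GG α V) {s t : ℝ} (hs : 0 ≤ s) (ht : 0 ≤ t) (hst : s + t = 1) :
    (s : ℂ) • x + (t : ℂ) • y ∈ GG α V := by
  set T : Set ℝ := {r | ((1 - r : ℝ) : ℂ) • x + (r : ℂ) • y ∈ GG α V} with hT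
  have hcl : IsClosed T := by
    refine (gg_closed h2 α V).preimage ?_
    have e1 : Continuous fun r : ℝ => ((1 - r : ℝ) : ℂ) :=
      Complex.continuous_ofReal.comp (continuous_const.sub continuous_id)
    exact (e1.smul continuous_const).add (Complex.continuous_ofReal.smul continuous_const)
  have h0 : (0 : ℝ) ∈ T := by
    show ((1 - 0 : ℝ) : ℂ) • x + ((0 : ℝ) : ℂ) • y ∈ GG α V
    rw [sub_zero, Complex.ofReal_one, one_smul, Complex.ofReal_zero, zero_smul, add_zero]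
    exact hx
  have h1 : (1 : ℝ) ∈ T := by
    show ((1 - 1 : ℝ) : ℂ) • x + ((1 : ℝ) : ℂ) • y ∈ GG α V
    rw [sub_self, Complex.ofReal_one, one_smul, Complex.ofReal_zero, zero_smul, zero_add]
    exact hy
  have hmid : ∀ p ∈ T, ∀ q ∈ T, (p + q) / 2 ∈ T := by
    intro p hp q hq
    refine gg_mid α V hm (g := ((1 - (p + q) / 2 : ℝ) : ℂ) • x + (((p + q) / 2 : ℝ) : ℂ) • y)
      hp hq fun φ => ?_
    rw [phi_comb, phi_comb, phi_comb]
    ring
  have ht1 : t ≤ 1 := by linarith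
  have h3 : t ∈ T := dyadic_all hcl h0 h1 hmid ht ht1
  have h4 : s = 1 - t := by linarith
  rw [h4]
  exact h3

/-- Finite convex combinations. -/
theorem gg_sum (h2 : N2P.{u}) {G : Type} (α : G → A ≃⋆ₐ[ℂ] A) (V : Set A)
    (hm : ∀ f₀ ∈ V, ∀ f₁ ∈ V, ∀ ε : ℝ, 0 < ε → ∃ f ∈ V, ∀ φ : TState A, Inv α φ →
      (φ.φ f).re ≤ ((φ.φ f₀).re + (φ.φ f₁).re) / 2 + ε) {ι : Type u} [Fintype ι]
    (f : ι → A) (hf : ∀ i, f i ∈ V) (c : ι → ℝ) (hc : ∀ i, 0 ≤ c i) (hc1 : ∑ i, c i = 1) :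
    ∃ g ∈ GG α V, ∀ φ : TState A, (φ.φ g).re = ∑ i, c i * (φ.φ (f i)).re := by
  have hV : ∀ i, f i ∈ GG α V := fun i ε hε => ⟨f i, hf i, fun φ _ => by linarith⟩
  have key : ∀ s : Finset ι, ∀ c : ι → ℝ, (∀ i, 0 ≤ c i) → ∑ i ∈ s, c i = 1 →
      ∃ g ∈ GG α V, ∀ φ : TState A, (φ.φ g).re = ∑ i ∈ s, c i * (φ.φ (f i)).re := by
    intro s
    classical
    induction s using Finset.induction_on with
    | empty =>
      intro c _ h
      rw [Finset.sum_empty] at h
      exact absurd h (by norm_num)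
    | insert a s ha ih =>
      intro c hc h
      rw [Finset.sum_insert ha] at h
      have hs0 : 0 ≤ ∑ i ∈ s, c i := Finset.sum_nonneg fun i _ => hc i
      rcases hs0.eq_or_lt with hz | hpos
      · have hz' : ∀ i ∈ s, c i = 0 := (Finset.sum_eq_zero_iff_of_nonneg fun i _ => hc i).mp hz.symm
        have ha1 : c a = 1 := by linarith
        refine ⟨f a, hV a, fun φ => ?_⟩
        rw [Finset.sum_insert ha, ha1, one_mul, Finset.sum_eq_zero, add_zero]
        intro i hi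
        rw [hz' i hi, zero_mul]
      · obtain ⟨g, hg, hgφ⟩ := ih (fun i => c i / ∑ i ∈ s, c i)
          (fun i => div_nonneg (hc i) hs0) (by rw [← Finset.sum_div, div_self hpos.ne'])
        refine ⟨((c a : ℝ) : ℂ) • f a + ((∑ i ∈ s, c i : ℝ) : ℂ) • g,
          gg_convex h2 α V hm (hV a) hg (hc a) hs0 h, fun φ => ?_⟩
        rw [phi_comb, hgφ, Finset.sum_insert ha, Finset.mul_sum]
        congr 1
        refine Finset.sum_congr rfl fun i _ => ?_
        field_simp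
  exact key Finset.univ c hc hc1

end

/-- The minimax principle. -/
theorem conv (h2 : N2P.{u}) : ConvP.{u} := by
  intro A _ _ _ G α V η hV hcov hm
  rcases (KSet α).eq_empty_or_nonempty with hK | hK
  · obtain ⟨f, hf⟩ := hV
    refine ⟨f, hf, fun φ hφ => ?_⟩
    have : (fun a => φ.φ a) ∈ KSet α := ⟨φ, hφ, fun _ => rfl⟩
    rw [hK] at this
    exact absurd this (Set.notMem_empty _)
  -- a finite cover
  have hopen : ∀ f : V, IsOpen {F : A → ℂ | (F f).re < η} := fun f =>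
    isOpen_lt (Complex.continuous_re.comp (continuous_apply _)) continuous_const
  obtain ⟨t, ht⟩ := (kset_compact h2 α).elim_finite_subcover
    (fun f : V => {F : A → ℂ | (F f).re < η}) hopen (by
      rintro F ⟨φ, hφ, hF⟩
      obtain ⟨f, hf, hfη⟩ := hcov φ hφ
      refine Set.mem_iUnion.mpr ⟨⟨f, hf⟩, ?_⟩
      show (F f).re < η
      rw [← hF]
      exact hfη)
  -- the finite-dimensional picture
  set Φ : (A → ℂ) → (t → ℝ) := fun F i => (F (i : V)).re with hΦ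
  have hΦc : Continuous Φ :=
    continuous_pi fun i => Complex.continuous_re.comp (continuous_apply _)
  have hCc : IsCompact (Φ '' KSet α) := (kset_compact h2 α).image hΦc
  have hCv : Convex ℝ (Φ '' KSet α) := by
    rintro _ ⟨F₀, hF₀, rfl⟩ _ ⟨F₁, hF₁, rfl⟩ a b ha hb hab
    refine ⟨_, kset_convex α hF₀ hF₁ ha hb hab, ?_⟩
    funext i
    show ((a : ℂ) * F₀ (i : V) + (b : ℂ) * F₁ (i : V)).re =
      a * (F₀ (i : V)).re + b * (F₁ (i : V)).re
    rw [Complex.add_re, Complex.re_ofReal_mul, Complex.re_ofReal_mul]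
  set D : Set (t → ℝ) := {v | ∀ j, η ≤ v j} with hD
  have hDc : IsClosed D := by
    rw [hD, Set.ofPred_forall]
    exact isClosed_iInter fun j => isClosed_le continuous_const (continuous_apply j)
  have hDv : Convex ℝ D := by
    intro x hx y hy a b ha hb hab j
    have e1 := hx j
    have e2 := hy j
    show η ≤ a * x j + b * y j
    calc η = a * η + b * η := by rw [← add_mul, hab, one_mul]
      _ ≤ a * x j + b * y j :=
        add_le_add (mul_le_mul_of_nonneg_left e1 ha) (mul_le_mul_of_nonneg_left e2 hb)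
  have hdis : Disjoint (Φ '' KSet α) D := by
    rw [Set.disjoint_left]
    rintro _ ⟨F, hF, rfl⟩ hFD
    obtain ⟨f, hf⟩ := Set.mem_iUnion.mp (ht hF)
    obtain ⟨hft, hfη⟩ := Set.mem_iUnion.mp hf
    have e1 : η ≤ (F (f : A)).re := hFD ⟨f, hft⟩
    have e2 : (F (f : A)).re < η := hfη
    exact absurd e1 (not_le.mpr e2)
  obtain ⟨l, p, q, hlp, hpq, hlq⟩ := geometric_hahn_banach_compact_closed hCv hCc hDv hDc hdis
  classical
  set lam : t → ℝ := fun j => l (Pi.single j 1) with hlam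
  have hl : ∀ x : t → ℝ, l x = ∑ j, x j * lam j := by
    intro x
    have e1 : x = ∑ j, x j • (Pi.single j (1 : ℝ) : t → ℝ) := by
      funext i
      rw [Finset.sum_apply]
      simp [Pi.single_apply]
    conv_lhs => rw [e1]
    rw [map_sum]
    refine Finset.sum_congr rfl fun j _ => ?_
    rw [map_smul, smul_eq_mul]
  have hη : (fun _ => η : t → ℝ) ∈ D := fun _ => le_rfl
  have hlam0 : ∀ j, 0 ≤ lam j := by
    intro j
    by_contra hneg
    rw [not_le] at hneg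
    set b : ℝ := l (fun _ => η) with hb
    have hbq : q < b := hlq _ hη
    set r : ℝ := (b - q) / (-lam j) with hr
    have hr0 : 0 ≤ r := div_nonneg (by linarith) (by linarith)
    have hmem : ((fun _ => η : t → ℝ) + r • (Pi.single j (1 : ℝ) : t → ℝ)) ∈ D := by
      intro i
      show η ≤ η + r * (Pi.single j (1 : ℝ) : t → ℝ) i
      have : 0 ≤ (Pi.single j (1 : ℝ) : t → ℝ) i := by
        rw [Pi.single_apply]
        split_ifs <;> norm_num
      have := mul_nonneg hr0 this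
      linarith
    have e1 := hlq _ hmem
    rw [map_add, map_smul, smul_eq_mul] at e1
    have hne : lam j ≠ 0 := hneg.ne
    have e2 : r * lam j = -(b - q) := by
      rw [hr, div_neg, neg_mul, div_mul_cancel₀ _ hne]
    have e3 : q < b + r * lam j := e1
    linarith
  have hLam : 0 < ∑ j, lam j := by
    have h0 : 0 ≤ ∑ j, lam j := Finset.sum_nonneg fun j _ => hlam0 j
    rcases h0.eq_or_lt with hz | hpos
    · exfalso
      have hz' : ∀ j ∈ Finset.univ, lam j = 0 :=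
        (Finset.sum_eq_zero_iff_of_nonneg fun j _ => hlam0 j).mp hz.symm
      have hl0 : ∀ x, l x = 0 := by
        intro x
        rw [hl]
        exact Finset.sum_eq_zero fun j hj => by rw [hz' j hj, mul_zero]
      obtain ⟨F, hF⟩ := hK
      have e1 := hlp _ ⟨F, hF, rfl⟩
      have e2 := hlq _ hη
      rw [hl0] at e1 e2
      linarith
    · exact hpos
  -- the convex combination
  obtain ⟨g, hg, hgφ⟩ := gg_sum h2 α V hm (ι := t) (fun j => ((j : V) : A)) (fun j => (j : V).2)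
    (fun j => lam j / ∑ j, lam j) (fun j => div_nonneg (hlam0 j) hLam.le)
    (by rw [← Finset.sum_div, div_self hLam.ne'])
  have hη1 : p / (∑ j, lam j) < η := by
    have e1 := hlq _ hη
    rw [hl, ← Finset.mul_sum] at e1
    rw [div_lt_iff₀ hLam]
    linarith
  obtain ⟨f, hf, hfφ⟩ := hg ((η - p / (∑ j, lam j)) / 2) (by linarith)
  refine ⟨f, hf, fun φ hφ => ?_⟩
  have e1 := hfφ φ hφ
  have e2 : (φ.φ g).re < p / (∑ j, lam j) := by
    rw [hgφ, lt_div_iff₀ hLam, Finset.sum_mul]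
    have e3 := hlp _ ⟨fun a => φ.φ a, ⟨φ, hφ, fun _ => rfl⟩, rfl⟩
    rw [hl] at e3
    refine lt_of_eq_of_lt (Finset.sum_congr rfl fun j _ => ?_) e3
    show lam j / (∑ j, lam j) * (φ.φ ((j : V) : A)).re * (∑ j, lam j) =
      (φ.φ ((j : V) : A)).re * lam j
    field_simp
  linarith

end RC.Conv94
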